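import Mathlib

/-! An `ℓ₁`-sum of `ℓ_{p_n}(Γ)` with `p_n → 1`: octahedral for subspaces of small density, without
copies of `ℓ₁(I)`, `I` uncountable. -/

set_option autoImplicit false

open Filter Topology Cardinal
open scoped ENNReal NNReal

universe u v

namespace Pool.Agent.Helper509.OH

/-! ### scalar inequalities -/

lemma scal_sub {a b r : ℝ} (ha : 0 ≤ a) (hb : 0 ≤ b) (h0 : 0 ≤ r) (h1 : r ≤ 1) :
    (a + b) ^ r ≤ a ^ r + b ^ r := by
  have h := NNReal.rpow_add_le_add_rpow (⟨a, ha⟩ : ℝ≥0) ⟨b, hb⟩ h0 h1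
  exact_mod_cast h

lemma abs_rpow (x p : ℝ) : |x| ^ p = (x ^ 2) ^ (p / 2) := by
  rw [← sq_abs x, ← Real.rpow_natCast, ← Real.rpow_mul (abs_nonneg x)]
  congr 1
  push_cast
  ring

/-- the parallelogram-type inequality for `1 ≤ p ≤ 2` -/
lemma scal_par {a b p : ℝ} (h0 : 0 ≤ p) (h1 : p ≤ 2) :
    |a + b| ^ p + |a - b| ^ p ≤ 2 * (|a| ^ p + |b| ^ p) := by
  rw [abs_rpow, abs_rpow, abs_rpow a, abs_rpow b]
  have hr0 : 0 ≤ p / 2 := by linarith
  have hr1 : p / 2 ≤ 1 := by linarith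
  have hc := (Real.concaveOn_rpow hr0 hr1).2 (Set.mem_Ici.2 (sq_nonneg (a + b)))
    (Set.mem_Ici.2 (sq_nonneg (a - b))) (show (0 : ℝ) ≤ 1 / 2 by norm_num)
    (show (0 : ℝ) ≤ 1 / 2 by norm_num) (by norm_num)
  simp only [smul_eq_mul] at hc
  have h2 : (1 / 2 * (a + b) ^ 2 + 1 / 2 * (a - b) ^ 2 : ℝ) = a ^ 2 + b ^ 2 := by ring
  rw [h2] at hc
  have h3 := scal_sub (sq_nonneg a) (sq_nonneg b) hr0 hr1
  linarith

/-- lower bound -/
lemma scal_low {a b p : ℝ} (ha : 0 ≤ a) (hb : 0 ≤ b) (hp : 1 ≤ p) :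
    (2 : ℝ) ^ (1 - p) * (a + b) ≤ (a ^ p + b ^ p) ^ (1 / p) := by
  have h := NNReal.rpow_add_le_mul_rpow_add_rpow (⟨a, ha⟩ : ℝ≥0) ⟨b, hb⟩ hp
  have h' : (a + b) ^ p ≤ (2 : ℝ) ^ (p - 1) * (a ^ p + b ^ p) := by exact_mod_cast h
  have hp0 : 0 < p := by linarith
  have hab : 0 ≤ a + b := by linarith
  have hs : 0 ≤ a ^ p + b ^ p := by positivity
  have h2 : a + b ≤ ((2 : ℝ) ^ (p - 1) * (a ^ p + b ^ p)) ^ (1 / p) := by
    calc a + b = ((a + b) ^ p) ^ (1 / p) := by
          rw [← Real.rpow_mul hab, mul_one_div_cancel hp0.ne', Real.rpow_one]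
      _ ≤ _ := Real.rpow_le_rpow (by positivity) h' (by positivity)
  rw [Real.mul_rpow (by positivity) hs, ← Real.rpow_mul (by norm_num)] at h2
  have h3 : (2 : ℝ) ^ (1 - p) * (2 : ℝ) ^ ((p - 1) * (1 / p)) ≤ 1 := by
    rw [← Real.rpow_add (by norm_num)]
    refine Real.rpow_le_one_of_one_le_of_nonpos (by norm_num) ?_
    have h4 : (p - 1) * (1 / p) ≤ p - 1 := by
      have h5 : 1 / p ≤ 1 := by
        rw [div_le_one hp0]; exact hp
      nlinarith
    linarith
  have hS : 0 ≤ (a ^ p + b ^ p) ^ (1 / p) := by positivity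
  have h22 : 0 < (2 : ℝ) ^ (1 - p) := by positivity
  calc (2 : ℝ) ^ (1 - p) * (a + b)
      ≤ (2 : ℝ) ^ (1 - p) * ((2 : ℝ) ^ ((p - 1) * (1 / p)) * (a ^ p + b ^ p) ^ (1 / p)) := by
        gcongr
    _ = ((2 : ℝ) ^ (1 - p) * (2 : ℝ) ^ ((p - 1) * (1 / p))) * (a ^ p + b ^ p) ^ (1 / p) := by ring
    _ ≤ 1 * (a ^ p + b ^ p) ^ (1 / p) := by gcongr
    _ = _ := one_mul _

/-! ### the spaces `ℓ_p(Γ)` -/

section lp

variable {Γ : Type u} {p : ℝ≥0∞} [Fact (1 ≤ p)]

lemma lp_par (h0 : 0 < p.toReal) (h2 : p.toReal ≤ 2) (x y : lp (fun _ : Γ => ℝ) p) :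
    ‖x + y‖ ^ p.toReal + ‖x - y‖ ^ p.toReal ≤ 2 * (‖x‖ ^ p.toReal + ‖y‖ ^ p.toReal) := by
  have hx := lp.hasSum_norm h0 x
  have hy := lp.hasSum_norm h0 y
  have h3 := (lp.hasSum_norm h0 (x + y)).add (lp.hasSum_norm h0 (x - y))
  have h4 := (hx.add hy).mul_left 2
  refine hasSum_le (fun i => ?_) h3 h4
  simp only [lp.coeFn_add, lp.coeFn_sub, Pi.add_apply, Pi.sub_apply, Real.norm_eq_abs]
  exact scal_par h0.le h2

lemma lp_low [DecidableEq Γ] (h1 : 1 ≤ p.toReal) (α : Γ) (w : lp (fun _ : Γ => ℝ) p)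
    (hw : w α = 0) (l : ℝ) :
    (2 : ℝ) ^ (1 - p.toReal) * (|l| + ‖w‖) ≤ ‖lp.single p α l + w‖ := by
  have h0 : 0 < p.toReal := by linarith
  set g := lp.single p α l + w with hg
  have hgα : g α = l := by
    rw [hg, lp.coeFn_add, Pi.add_apply, lp.single_apply_self, hw, add_zero]
  have h2 := lp.norm_compl_sum_single h0 g {α}
  rw [Finset.sum_singleton, Finset.sum_singleton, hgα] at h2
  have h3 : g - lp.single p α l = w := by rw [hg, add_sub_cancel_left]
  rw [h3, Real.norm_eq_abs] at h2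
  have h4 : ‖g‖ ^ p.toReal = |l| ^ p.toReal + ‖w‖ ^ p.toReal := by linarith
  have h5 : ‖g‖ = (|l| ^ p.toReal + ‖w‖ ^ p.toReal) ^ (1 / p.toReal) := by
    rw [← h4, ← Real.rpow_mul (norm_nonneg g), mul_one_div_cancel h0.ne', Real.rpow_one]
  rw [h5]
  exact scal_low (abs_nonneg l) (norm_nonneg w) h1

end lp

/-! ### the space -/

/-- the exponents -/
noncomputable def pr (n : ℕ) : ℝ := 1 + 1 / (n + 1)

lemma pr_one (n : ℕ) : 1 < pr n := by
  unfold pr
  have : (0 : ℝ) < 1 / (n + 1) := by positivity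
  linarith

lemma pr_two (n : ℕ) : pr n ≤ 2 := by
  unfold pr
  have : 1 / ((n : ℝ) + 1) ≤ 1 := by
    rw [div_le_one (by positivity)]
    have : (0 : ℝ) ≤ n := Nat.cast_nonneg n
    linarith
  linarith

/-- the exponents -/
noncomputable def pp (n : ℕ) : ℝ≥0∞ := ENNReal.ofReal (pr n)

lemma pp_toReal (n : ℕ) : (pp n).toReal = pr n :=
  ENNReal.toReal_ofReal (by linarith [pr_one n])

instance pp_fact (n : ℕ) : Fact (1 ≤ pp n) := by
  refine ⟨?_⟩
  unfold pp
  rw [← ENNReal.ofReal_one]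
  exact ENNReal.ofReal_le_ofReal (pr_one n).le

/-- the `n`-th summand `ℓ_{p_n}(Γ)` -/
abbrev Z (Γ : Type u) (n : ℕ) : Type u := lp (fun _ : Γ => ℝ) (pp n)

/-- the `ℓ₁`-sum -/
abbrev XX (Γ : Type u) : Type u := lp (fun n : ℕ => Z Γ n) 1

section space

variable {Γ : Type u}

lemma one_toReal : (0 : ℝ) < (1 : ℝ≥0∞).toReal := by simp

lemma norm_split (n : ℕ) (f : XX Γ) : ‖f - lp.single 1 n (f n)‖ + ‖f n‖ = ‖f‖ := by
  have h := lp.norm_compl_sum_single one_toReal f {n}
  rw [Finset.sum_singleton, Finset.sum_singleton] at h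
  simp only [ENNReal.toReal_one, Real.rpow_one] at h
  linarith

lemma norm_split_fin (s : Finset ℕ) (f : XX Γ) :
    ‖f - ∑ n ∈ s, lp.single 1 n (f n)‖ + ∑ n ∈ s, ‖f n‖ = ‖f‖ := by
  have h := lp.norm_compl_sum_single one_toReal f s
  simp only [ENNReal.toReal_one, Real.rpow_one] at h
  linarith

lemma XX_low [DecidableEq Γ] (n : ℕ) (α : Γ) (y : XX Γ) (hy : y n α = 0) (l : ℝ) :
    (2 : ℝ) ^ (1 - pr n) * (|l| + ‖y‖) ≤
      ‖l • (lp.single 1 n (lp.single (pp n) α (1 : ℝ)) : XX Γ) + y‖ := by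
  set x : XX Γ := lp.single 1 n (lp.single (pp n) α (1 : ℝ)) with hx
  have hxn : x n = lp.single (pp n) α (1 : ℝ) := by rw [hx, lp.single_apply_self]
  have hlx : l • x = lp.single 1 n (lp.single (pp n) α l) := by
    rw [hx, ← lp.single_smul, ← lp.single_smul, smul_eq_mul, mul_one]
  have h1 := norm_split n (l • x + y)
  have h2 := norm_split n y
  have h3 : (l • x + y) n = lp.single (pp n) α l + y n := by
    rw [lp.coeFn_add, Pi.add_apply, hlx, lp.single_apply_self]
  have h4 : l • x + y - lp.single 1 n ((l • x + y) n) = y - lp.single 1 n (y n) := by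
    rw [h3, lp.single_add, hlx]
    abel
  rw [h4, h3] at h1
  have h5 : 1 ≤ (pp n).toReal := by rw [pp_toReal]; exact (pr_one n).le
  have h6 := lp_low h5 α (y n) hy l
  rw [pp_toReal] at h6
  have h7 : (2 : ℝ) ^ (1 - pr n) ≤ 1 :=
    Real.rpow_le_one_of_one_le_of_nonpos (by norm_num) (by linarith [pr_one n])
  have h8 : 0 ≤ ‖y - lp.single 1 n (y n)‖ := norm_nonneg _
  have h9 : (2 : ℝ) ^ (1 - pr n) * ‖y - lp.single 1 n (y n)‖ ≤ ‖y - lp.single 1 n (y n)‖ := by
    nlinarith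
  rw [← h1, ← h2]
  calc (2 : ℝ) ^ (1 - pr n) * (|l| + (‖y - lp.single 1 n (y n)‖ + ‖y n‖))
      = (2 : ℝ) ^ (1 - pr n) * ‖y - lp.single 1 n (y n)‖ +
          (2 : ℝ) ^ (1 - pr n) * (|l| + ‖y n‖) := by ring
    _ ≤ _ := add_le_add h9 h6

/-- the support of a vector -/
def sup (y : XX Γ) : Set Γ := {α | ∃ n, y n α ≠ 0}

lemma sup_countable (y : XX Γ) : (sup y).Countable := by
  have h1 : sup y = ⋃ n, {α | y n α ≠ 0} := by
    ext α; simp [sup]
  rw [h1]
  refine Set.countable_iUnion fun n => ?_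
  have h0 : 0 < (pp n).toReal := by rw [pp_toReal]; linarith [pr_one n]
  have h2 := ((lp.memℓp (y n)).summable h0).countable_support
  refine h2.mono ?_
  intro α hα
  rw [Function.mem_support]
  have h3 : ‖y n α‖ ≠ 0 := norm_ne_zero_iff.2 hα
  exact (Real.rpow_pos_of_pos (lt_of_le_of_ne (norm_nonneg _) h3.symm) _).ne'

lemma eval_cont (n : ℕ) (α : Γ) : Continuous fun y : XX Γ => y n α := by
  have h1 : ∀ y z : XX Γ, |y n α - z n α| ≤ ‖y - z‖ := by
    intro y z
    have h2 : ‖(y - z) n‖ ≤ ‖y - z‖ := lp.norm_apply_le_norm (by simp) (y - z) n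
    have h3 : ‖(y - z) n α‖ ≤ ‖(y - z) n‖ := lp.norm_apply_le_norm (by
      have := (pp_fact n).out
      intro h
      rw [h] at this
      simp at this) ((y - z) n) α
    have h4 : (y - z) n α = y n α - z n α := by
      simp only [lp.coeFn_sub, Pi.sub_apply]
    rw [h4, Real.norm_eq_abs] at h3
    exact h3.trans h2
  refine LipschitzWith.continuous (K := 1) (LipschitzWith.of_dist_le_mul fun y z => ?_)
  rw [Real.dist_eq, NNReal.coe_one, one_mul, dist_eq_norm]
  exact h1 y z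

/-- octahedrality -/
theorem exists_oct (κ : Cardinal.{u}) (hκ : ℵ₀ ≤ κ) (hΓ : κ < Cardinal.mk Γ)
    (ε : ℝ) (hε : 0 < ε) (D : Set (XX Γ)) (hD : Cardinal.mk D ≤ κ) :
    ∃ x : XX Γ, ‖x‖ = 1 ∧ ∀ (l : ℝ), ∀ y ∈ closure D, (1 - ε) * (|l| + ‖y‖) ≤ ‖l • x + y‖ := by
  classical
  -- a fresh element
  obtain ⟨α, hα⟩ : ∃ α : Γ, α ∉ ⋃ d : D, sup (d : XX Γ) := by
    by_contra hcon
    push Not at hcon
    have h1 : (⋃ d : D, sup (d : XX Γ)) = Set.univ := Set.eq_univ_of_forall hcon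
    have h2 : Cardinal.mk (⋃ d : D, sup (d : XX Γ)) ≤ Cardinal.mk D * ℵ₀ := by
      refine (Cardinal.mk_iUnion_le_sum_mk).trans ?_
      refine (Cardinal.sum_le_sum _ (fun _ => ℵ₀) fun d => ?_).trans ?_
      · exact Cardinal.mk_le_aleph0_iff.2 (sup_countable _)
      · rw [Cardinal.sum_const, Cardinal.lift_id, Cardinal.lift_id]
    rw [h1, Cardinal.mk_univ] at h2
    have h3 : Cardinal.mk Γ ≤ κ := by
      refine h2.trans ?_
      calc Cardinal.mk D * ℵ₀ ≤ κ * κ := mul_le_mul' hD hκ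
        _ = κ := Cardinal.mul_eq_self hκ
    exact absurd hΓ (not_lt.2 h3)
  have hD0 : ∀ n, ∀ y ∈ closure D, y n α = 0 := by
    intro n y hy
    have h1 : IsClosed {y : XX Γ | y n α = 0} := isClosed_eq (eval_cont n α) continuous_const
    refine h1.closure_subset_iff.2 ?_ hy
    intro d hd
    by_contra hne
    apply hα
    rw [Set.mem_iUnion]
    exact ⟨⟨d, hd⟩, n, hne⟩
  obtain ⟨n, hn⟩ : ∃ n, 1 - ε ≤ (2 : ℝ) ^ (1 - pr n) := by
    have h1 : Tendsto (fun n : ℕ => (2 : ℝ) ^ (-(1 / ((n : ℝ) + 1)))) atTop (𝓝 ((2 : ℝ) ^ (-(0 : ℝ)))) := by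
      refine ((Real.continuousAt_const_rpow (by norm_num)).tendsto).comp ?_
      exact tendsto_one_div_add_atTop_nhds_zero_nat.neg
    rw [neg_zero, Real.rpow_zero] at h1
    obtain ⟨n, hn⟩ := (h1.eventually (lt_mem_nhds (show 1 - ε < 1 by linarith))).exists
    refine ⟨n, ?_⟩
    have h2 : 1 - pr n = -(1 / ((n : ℝ) + 1)) := by unfold pr; ring
    rw [h2]
    exact hn.le
  refine ⟨lp.single 1 n (lp.single (pp n) α (1 : ℝ)), ?_, ?_⟩
  · rw [lp.norm_single (by simp), lp.norm_single (zero_lt_one.trans_le (pp_fact n).out), norm_one]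
  · intro l y hy
    refine le_trans ?_ (XX_low n α y (hD0 n y hy) l)
    have : 0 ≤ |l| + ‖y‖ := by positivity
    gcongr

/-! ### no copies of `ℓ₁(I)` -/

/-- the averaging functional -/
noncomputable def Phi (N : ℕ) (x : XX Γ) : ℝ := ∑ n ∈ Finset.range N, ‖x n‖ ^ pr n

lemma Phi_par (N : ℕ) (x y : XX Γ) : Phi N (x + y) + Phi N (x - y) ≤ 2 * (Phi N x + Phi N y) := by
  unfold Phi
  rw [← Finset.sum_add_distrib, ← Finset.sum_add_distrib, Finset.mul_sum]
  refine Finset.sum_le_sum fun n _ => ?_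
  have h0 : 0 < (pp n).toReal := by rw [pp_toReal]; linarith [pr_one n]
  have h2 : (pp n).toReal ≤ 2 := by rw [pp_toReal]; exact pr_two n
  have h := lp_par h0 h2 (x n) (y n)
  rw [pp_toReal] at h
  simpa only [lp.coeFn_add, lp.coeFn_sub, Pi.add_apply, Pi.sub_apply] using h

lemma exists_signs {I : Type v} [DecidableEq I] (N : ℕ) (f : I → XX Γ) (s : Finset I) :
    ∃ ε : I → ℝ, (∀ i, |ε i| = 1) ∧ Phi N (∑ i ∈ s, ε i • f i) ≤ ∑ i ∈ s, Phi N (f i) := by
  induction s using Finset.induction_on with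
  | empty =>
    refine ⟨fun _ => 1, fun _ => abs_one, ?_⟩
    simp only [Finset.sum_empty]
    unfold Phi
    refine (Finset.sum_eq_zero fun n _ => ?_).le
    have h1 : ((0 : XX Γ) n) = 0 := rfl
    rw [h1, norm_zero, Real.zero_rpow]
    linarith [pr_one n]
  | insert a s ha ih =>
    obtain ⟨ε, hε, h⟩ := ih
    have h1 := Phi_par N (∑ i ∈ s, ε i • f i) (f a)
    have key : ∀ t : ℝ, ∑ i ∈ insert a s, (Function.update ε a t) i • f i =
        ∑ i ∈ s, ε i • f i + t • f a := by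
      intro t
      rw [Finset.sum_insert ha, Function.update_self, add_comm]
      congr 1
      refine Finset.sum_congr rfl fun i hi => ?_
      rw [Function.update_of_ne]
      rintro rfl
      exact ha hi
    by_cases h2 : Phi N (∑ i ∈ s, ε i • f i + f a) ≤ Phi N (∑ i ∈ s, ε i • f i) + Phi N (f a)
    · refine ⟨Function.update ε a 1, ?_, ?_⟩
      · intro i
        by_cases hi : i = a
        · subst hi; simp
        · rw [Function.update_of_ne hi]; exact hε i
      · rw [key, one_smul, Finset.sum_insert ha]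
        linarith
    · refine ⟨Function.update ε a (-1), ?_, ?_⟩
      · intro i
        by_cases hi : i = a
        · subst hi; simp
        · rw [Function.update_of_ne hi]; exact hε i
      · rw [key, neg_one_smul, ← sub_eq_add_neg, Finset.sum_insert ha]
        linarith

lemma tail_small (x : XX Γ) (δ : ℝ) (hδ : 0 < δ) :
    ∃ N, ‖x - ∑ n ∈ Finset.range N, lp.single 1 n (x n)‖ ≤ δ := by
  have h := (lp.hasSum_single (by simp) x).tendsto_sum_nat
  obtain ⟨N, hN⟩ := ((Metric.tendsto_atTop.1 h) δ hδ)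
  refine ⟨N, ?_⟩
  have := hN N le_rfl
  rw [dist_comm, dist_eq_norm] at this
  exact this.le

/-- no copy of `ℓ₁(I)` for uncountable `I` -/
theorem no_ell1 {I : Type v} (hI : Uncountable I) (T : lp (fun _ : I => ℝ) 1 →L[ℝ] XX Γ) (c : ℝ)
    (hc : 0 < c) (hT : ∀ x, c * ‖x‖ ≤ ‖T x‖) : False := by
  classical
  let e : I → lp (fun _ : I => ℝ) 1 := fun i => lp.single (E := fun _ : I => ℝ) 1 i (1 : ℝ)
  have he : ∀ i, ‖e i‖ = 1 := fun i => by
    show ‖lp.single (E := fun _ : I => ℝ) 1 i (1 : ℝ)‖ = 1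
    rw [lp.norm_single (by simp), norm_one]
  let f : I → XX Γ := fun i => T (e i)
  set K := ‖T‖ + 1 with hK
  have hK1 : 1 ≤ K := by have := norm_nonneg T; linarith
  have hf : ∀ i, ‖f i‖ ≤ K := by
    intro i
    have := T.le_opNorm (e i)
    rw [he, mul_one] at this
    show ‖T (e i)‖ ≤ K
    linarith
  choose Nf hNf using fun i => tail_small (f i) (c / 2) (by positivity)
  -- one `N` for infinitely many indices
  obtain ⟨N, hN⟩ : ∃ N, {i | Nf i = N}.Infinite := by
    by_contra hcon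
    push Not at hcon
    have h1 : (⋃ N, {i | Nf i = N}) = Set.univ := by
      ext i; simp
    have h2 : (⋃ N, {i | Nf i = N}).Countable :=
      Set.countable_iUnion fun N => (hcon N).countable
    rw [h1] at h2
    exact Set.not_countable_univ_iff.2 hI h2
  set A := {i | Nf i = N} with hA
  -- the exponent `q`
  set q := pr N with hq
  have hq1 : 1 < q := pr_one N
  set M : ℝ := N * K ^ 2 with hM
  have hPhi : ∀ i, Phi N (f i) ≤ M := by
    intro i
    unfold Phi
    refine (Finset.sum_le_sum (g := fun _ => K ^ 2) fun n _ => ?_).trans ?_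
    · have h1 : ‖f i n‖ ≤ K := (lp.norm_apply_le_norm (by simp) (f i) n).trans (hf i)
      calc ‖f i n‖ ^ pr n ≤ K ^ pr n := Real.rpow_le_rpow (norm_nonneg _) h1 (by linarith [pr_one n])
        _ ≤ K ^ (2 : ℝ) := Real.rpow_le_rpow_of_exponent_le hK1 (pr_two n)
        _ = K ^ 2 := by norm_cast
    · rw [Finset.sum_const, Finset.card_range, nsmul_eq_mul]
  -- the main inequality
  have main : ∀ m : ℕ, 1 ≤ m → c / 2 * m ≤ N * (m * (M + 1)) ^ (1 / q) := by
    intro m hm
    obtain ⟨s, hs, hcard⟩ := hN.exists_subset_card_eq m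
    obtain ⟨ε, hε, hsum⟩ := exists_signs N f s
    set v := ∑ i ∈ s, ε i • f i with hv
    set x := ∑ i ∈ s, ε i • e i with hx
    have hTx : T x = v := by
      rw [hx, map_sum, hv]
      exact Finset.sum_congr rfl fun i _ => map_smul T (ε i) (e i)
    have hxn : ‖x‖ = m := by
      have h1 : ∀ i, x i = if i ∈ s then ε i else 0 := by
        intro i
        rw [hx]
        simp only [lp.coeFn_sum, Finset.sum_apply, lp.coeFn_smul, Pi.smul_apply, smul_eq_mul]
        by_cases hi : i ∈ s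
        · rw [if_pos hi, Finset.sum_eq_single i]
          · show ε i * (lp.single (E := fun _ : I => ℝ) 1 i (1 : ℝ)) i = ε i
            rw [lp.single_apply_self, mul_one]
          · intro j _ hj
            show ε j * (lp.single (E := fun _ : I => ℝ) 1 j (1 : ℝ)) i = 0
            rw [lp.single_apply_ne (E := fun _ : I => ℝ) (p := 1) j (1 : ℝ) (Ne.symm hj), mul_zero]
          · intro h; exact absurd hi h
        · rw [if_neg hi]
          refine Finset.sum_eq_zero fun j hj => ?_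
          show ε j * (lp.single (E := fun _ : I => ℝ) 1 j (1 : ℝ)) i = 0
          rw [lp.single_apply_ne (E := fun _ : I => ℝ) (p := 1) j (1 : ℝ), mul_zero]
          rintro rfl
          exact hi hj
      have h2 := lp.norm_rpow_eq_tsum one_toReal x
      simp only [ENNReal.toReal_one, Real.rpow_one] at h2
      rw [h2, tsum_eq_sum (s := s)]
      · rw [Finset.sum_congr rfl (g := fun _ => (1 : ℝ)) fun i hi => ?_]
        · rw [Finset.sum_const, hcard, nsmul_eq_mul, mul_one]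
        · rw [h1, if_pos hi, Real.norm_eq_abs, hε]
      · intro i hi
        rw [h1, if_neg hi, norm_zero]
    have h1 : c * m ≤ ‖v‖ := by
      have := hT x
      rw [hxn, hTx] at this
      exact this
    -- the tail
    have h2 : ‖v - ∑ n ∈ Finset.range N, lp.single 1 n (v n)‖ ≤ m * (c / 2) := by
      have h3 : v - ∑ n ∈ Finset.range N, lp.single 1 n (v n) =
          ∑ i ∈ s, ε i • (f i - ∑ n ∈ Finset.range N, lp.single 1 n (f i n)) := by
        simp only [smul_sub, Finset.sum_sub_distrib]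
        congr 1
        simp only [Finset.smul_sum]
        rw [Finset.sum_comm]
        refine Finset.sum_congr rfl fun n _ => ?_
        have h4 : v n = ∑ i ∈ s, ε i • f i n := by
          rw [hv]
          simp only [lp.coeFn_sum, Finset.sum_apply, lp.coeFn_smul, Pi.smul_apply]
        rw [h4]
        have h5 : ∀ (t : Finset I), (lp.single 1 n (∑ i ∈ t, ε i • f i n) : XX Γ) =
            ∑ i ∈ t, ε i • lp.single 1 n (f i n) := by
          intro t
          induction t using Finset.induction_on with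
          | empty => simp
          | insert a t ha ih =>
            rw [Finset.sum_insert ha, Finset.sum_insert ha, lp.single_add, ih, lp.single_smul]
        exact h5 s
      rw [h3]
      refine (norm_sum_le _ _).trans ?_
      refine (Finset.sum_le_sum (g := fun _ => c / 2) fun i hi => ?_).trans ?_
      · rw [norm_smul, Real.norm_eq_abs, hε, one_mul]
        have hiA : Nf i = N := hs hi
        rw [← hiA]
        exact hNf i
      · rw [Finset.sum_const, hcard, nsmul_eq_mul]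
    have h3 := norm_split_fin (Finset.range N) v
    have hmM : Phi N v ≤ m * M := by
      refine hsum.trans ((Finset.sum_le_sum fun i _ => hPhi i).trans ?_)
      rw [Finset.sum_const, hcard, nsmul_eq_mul]
    have hM0 : 0 ≤ M := by rw [hM]; positivity
    have hm1 : (1 : ℝ) ≤ m := by exact_mod_cast hm
    have h4 : ∀ n ∈ Finset.range N, ‖v n‖ ≤ (m * (M + 1)) ^ (1 / q) := by
      intro n hn
      have h5 : ‖v n‖ ^ pr n ≤ Phi N v :=
        Finset.single_le_sum (f := fun n => ‖v n‖ ^ pr n) (fun k _ => by positivity) hn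
      have h6 : ‖v n‖ ^ pr n ≤ m * (M + 1) := by nlinarith
      have hp0 : 0 < pr n := by linarith [pr_one n]
      have h7 : ‖v n‖ ≤ (m * (M + 1)) ^ (1 / pr n) := by
        calc ‖v n‖ = (‖v n‖ ^ pr n) ^ (1 / pr n) := by
              rw [← Real.rpow_mul (norm_nonneg _), mul_one_div_cancel hp0.ne', Real.rpow_one]
          _ ≤ _ := Real.rpow_le_rpow (by positivity) h6 (by positivity)
      refine h7.trans (Real.rpow_le_rpow_of_exponent_le (by nlinarith) ?_)
      rw [hq]
      refine one_div_le_one_div_of_le (by linarith [pr_one N]) ?_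
      unfold pr
      have hnN : (n : ℝ) + 1 ≤ N + 1 := by
        have : n < N := Finset.mem_range.1 hn
        have : (n : ℝ) < N := by exact_mod_cast this
        linarith
      have := one_div_le_one_div_of_le (show (0 : ℝ) < (n : ℝ) + 1 by positivity) hnN
      linarith
    have h5 : ∑ n ∈ Finset.range N, ‖v n‖ ≤ N * (m * (M + 1)) ^ (1 / q) := by
      refine (Finset.sum_le_sum h4).trans ?_
      rw [Finset.sum_const, Finset.card_range, nsmul_eq_mul]
    linarith
  -- the contradiction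
  have hlim : Tendsto (fun m : ℕ => (m : ℝ) ^ (1 / q - 1)) atTop (𝓝 0) := by
    have h1 : 0 < 1 - 1 / q := by
      rw [sub_pos, div_lt_one (by linarith)]
      exact hq1
    have h2 := (tendsto_rpow_neg_atTop h1).comp tendsto_natCast_atTop_atTop
    refine h2.congr fun m => ?_
    show (m : ℝ) ^ (-(1 - 1 / q)) = _
    congr 1
    ring
  have hlim2 : Tendsto (fun m : ℕ => (N * (M + 1) ^ (1 / q)) * (m : ℝ) ^ (1 / q - 1)) atTop
      (𝓝 ((N * (M + 1) ^ (1 / q)) * 0)) := hlim.const_mul _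
  rw [mul_zero] at hlim2
  obtain ⟨m, hm1, hm2⟩ := ((hlim2.eventually (gt_mem_nhds (show 0 < c / 2 by positivity))).and
    (eventually_ge_atTop 1)).exists
  have h1 := main m hm2
  have hm0 : (0 : ℝ) < m := by exact_mod_cast hm2
  have hM0 : 0 ≤ M := by rw [hM]; positivity
  rw [Real.mul_rpow hm0.le (by linarith)] at h1
  have h2 : (m : ℝ) ^ (1 / q - 1) * m = (m : ℝ) ^ (1 / q) := by
    rw [← Real.rpow_add_one hm0.ne']
    congr 1
    ring
  have h3 : N * (m ^ (1 / q) * (M + 1) ^ (1 / q)) =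
      (N * (M + 1) ^ (1 / q) * (m : ℝ) ^ (1 / q - 1)) * m := by
    rw [← h2]; ring
  rw [h3] at h1
  have h4 : c / 2 ≤ N * (M + 1) ^ (1 / q) * (m : ℝ) ^ (1 / q - 1) := le_of_mul_le_mul_right h1 hm0
  linarith

end space

end Pool.Agent.Helper509.OH
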